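import Pool.Agent.DeckB.FinalB

/-!
# The alternating tree: almost largest decks up to an exact threshold, exponentially bad beyond

There is an explicit algebraic number `δ = 0.1527…` such that the size `n - d` deck of the
alternating tree with `n` leaves has at least `M n (n - d) / (9 √d)` members for all `d` up to
`δ (n - 5)`, and at most `exp (- c n) M n (n - d)` members for `d` between `(δ + ε) n` and
`(1 - ε) n`. For `d = o (√n)` it has asymptotically `M n (n - d)` members. Every tree with a deck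
of almost this size is alternating up to few joins.
-/

set_option autoImplicit false

namespace Pool.Agent.Results.MP_dabf1a_co.AlternatingTree

open Filter Topology Pool.Agent.DeckB

/-- **The alternating tree.**
(1) For all `n ≥ 3` and `d ≤ n` the alternating tree has `n` leaves, and the numbers
`2 ^ d * (n / 3 - 1).choose d`, the size of its deck, `M n (n - d)`,
`((2 * n - 1) / 3 + d - 1).choose d` are increasing.
(2) There is a root `β` between `59 / 25` and `71 / 30` of an explicit polynomial such that for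
`δ = 2 / (3 (β + 2))`: if `1 ≤ d ≤ δ (n - 5)`, then `M n (n - d)` is at most `9 √d` times the
size of the deck of the alternating tree, and for every `ε > 0` there are `c > 0` and `N` such
that for `n ≥ N` and `(δ + ε) n ≤ d ≤ (1 - ε) n` the deck of the alternating tree has at most
`exp (- c n) M n (n - d)` members.
(3) If `d n ^ 2 / n` tends to `0`, the deck of the alternating tree and `M n (n - d n)` are both
asymptotically equal to `(2 n / 3) ^ d / d!`.
(4) Every tree `T` with `n ≥ 3` leaves is built from trees with at most three leaves by `s`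
joins and steps `T ↦ (leaf, (cherry, T))`, where `s` is such that for `1 ≤ d`, `9 d + 5 ≤ n` its
deck has at most `7 √d exp (- s d / (16 n))` times as many members as the deck of the alternating
tree; hence `s ≤ (16 n / d) log (7 √d)` if the deck of `T` is as large as possible. -/
theorem result :
    (∀ n d : ℕ, 3 ≤ n → d ≤ n → (altTree n).size = n ∧
      2 ^ d * (n / 3 - 1).choose d ≤ (deck (n - d) (altTree n)).ncard ∧
      (deck (n - d) (altTree n)).ncard ≤ M n (n - d) ∧
      M n (n - d) ≤ ((2 * n - 1) / 3 + d - 1).choose d) ∧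
    (∃ β δ : ℝ, 59 / 25 < β ∧ β < 71 / 30 ∧
      (β ^ 4 + 3 * β ^ 3 + 3 * β ^ 2 + β - 2) ^ 3 =
        β ^ 2 * (β + 2) ^ 4 * (β ^ 2 + β - 1) ^ 3 ∧ δ = 2 / (3 * (β + 2)) ∧
      (∀ n d : ℕ, 1 ≤ d → (d : ℝ) ≤ δ * (n - 5) →
        (M n (n - d) : ℝ) ≤ 9 * √d * (deck (n - d) (altTree n)).ncard) ∧
      (∀ ε : ℝ, 0 < ε → ∃ (c : ℝ) (N : ℕ), 0 < c ∧ ∀ n ≥ N, ∀ d : ℕ,
        (δ + ε) * n ≤ d → (d : ℝ) ≤ (1 - ε) * n →
        ((deck (n - d) (altTree n)).ncard : ℝ) ≤ Real.exp (-(c * n)) * M n (n - d))) ∧
    (∀ d : ℕ → ℕ, Tendsto (fun n => (d n : ℝ) ^ 2 / n) atTop (𝓝 0) →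
      Tendsto (fun n : ℕ => (M n (n - d n) : ℝ) / ((2 * n / 3) ^ d n / (d n).factorial))
        atTop (𝓝 1) ∧
      Tendsto (fun n : ℕ => ((deck (n - d n) (altTree n)).ncard : ℝ) /
        ((2 * n / 3) ^ d n / (d n).factorial)) atTop (𝓝 1)) ∧
    (∀ T : BT, 3 ≤ T.size → ∃ s : ℕ, Alt s T ∧ ∀ d : ℕ, 1 ≤ d → 9 * d + 5 ≤ T.size →
      ((deck (T.size - d) T).ncard : ℝ) ≤ 7 * √d * Real.exp (-(s * d / (16 * T.size))) *
        (deck (T.size - d) (altTree T.size)).ncard ∧
      ((deck (T.size - d) T).ncard = M T.size (T.size - d) →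
        (s : ℝ) ≤ 16 * T.size / d * Real.log (7 * √d))) := by
  refine ⟨fun n d hn hd => ⟨altTree_size hn, le_altTree hn d, altTree_le_M hn (Nat.sub_le _ _),
    ?_⟩, ?_, fun d hd => main_tendsto hd, fun T hT => exists_structure hT⟩
  · have h1 := M_le (n := n) (j := n - d) (by omega) (Nat.sub_le _ _)
    rwa [show n - (n - d) = d by omega, Nat.multichoose_eq] at h1
  · obtain ⟨β, h1, h2, h3, h4, h5⟩ := exists_threshold
    refine ⟨β, _, h1, h2, h3, rfl, fun n d hd hn => M_le_altTreeC h1.le h5 hd ?_,
      fun ε hε => phaseC h4 (by linarith) (by linarith) hε⟩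
    have h6 : 0 < 3 * (β + 2) := by linarith
    rw [div_mul_eq_mul_div, le_div_iff₀ h6] at hn
    linarith

end Pool.Agent.Results.MP_dabf1a_co.AlternatingTree
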