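import Pool.Agent.LeafDeck.ExactMain

/-!
# The largest decks for few deleted leaves: exact values and all maximisers

Both questions are solved for all pairs `(n, j)` with `d = n - j ≥ 2` and `n ≥ 45 d + 5`, and for
`d = 2` for all `n ≥ 9`: `M(n, n - d)` is given by a closed formula, and all trees attaining it
are described. Here `cherry` and `cat3` are the trees with two and three leaves, and `alt k Z` is
obtained from `Z` by attaching, going up, a cherry and then a single leaf, `k` times.
-/

set_option autoImplicit false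

namespace Pool.Agent.Results.MP_dabf1a_co.ExactDecks

open LeafDeck BTree

/-- **Exact decks.** Let `d ≥ 1` and `N ≥ 15 d`, or `d = 2` and `N ≥ 2`.
For `n = 3 N + 3` the alternating tree is the unique tree with the largest size `n - d` deck.
For `n = 3 N + 5` the maximisers are exactly the trees obtained from the alternating tree with
`3 N + 3` leaves by inserting a cherry above some block or above the bottom `cat3`, and one more
tree. For `n = 3 N + 4` and `d ≥ 2` they are exactly the trees obtained from the alternating tree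
with `3 N` leaves by inserting a leaf and, below it, a subtree `cat3`, with `i` blocks above and
`j` blocks below, `3 i + 3 > d` and `3 j + 1 > d`. The largest numbers are `val 1 N d`, `val 2 N d`
and `valO N d`: the coefficients of `z ^ d` in `∑ j, z ^ (3 j) (1 + 2 z) ^ (N - j) (1 + z) ^ b`
(`b = 1, 2`) and in `∑ m, z ^ (3 m) (1 + 2 z) ^ (N - 1 - m) (m + 1 + (2 m + 3) z + (m + 4) z ^ 2 +
2 z ^ 3)`. -/
theorem result {N d : ℕ} (h : (1 ≤ d ∧ 15 * d ≤ N) ∨ (d = 2 ∧ 2 ≤ N)) :
    (maxDeck (3 * N + 3) (3 * N + 3 - d) = val 1 N d ∧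
      ∀ T : BTree, T.size = 3 * N + 3 →
        ((deck T (3 * N + 3 - d)).ncard = maxDeck (3 * N + 3) (3 * N + 3 - d) ↔
          Iso T (alt N cat3))) ∧
    (maxDeck (3 * N + 5) (3 * N + 5 - d) = val 2 N d ∧
      ∀ T : BTree, T.size = 3 * N + 5 →
        ((deck T (3 * N + 5 - d)).ncard = maxDeck (3 * N + 5) (3 * N + 5 - d) ↔
          (∃ i j, i + j = N ∧ Iso T (alt i (.node cherry (alt j cat3)))) ∨
            Iso T (alt N (.node .leaf (.node cherry cherry))))) ∧
    (2 ≤ d → maxDeck (3 * N + 4) (3 * N + 4 - d) = valO N d ∧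
      ∀ T : BTree, T.size = 3 * N + 4 →
        ((deck T (3 * N + 4 - d)).ncard = maxDeck (3 * N + 4) (3 * N + 4 - d) ↔
          ∃ i j, i + j + 1 = N ∧ d < 3 * i + 3 ∧ d < 3 * j + 1 ∧
            Iso T (alt i (.node .leaf (.node cat3 (alt j cat3)))))) :=
  exact_main h

end Pool.Agent.Results.MP_dabf1a_co.ExactDecks
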