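import Pool.Agent.LeafDeck.Stab

/-!
# The trees with the largest decks when few leaves are deleted

The nearly extremal trees near the diagonal are characterised. Necessity: every rooted binary tree
with `n` leaves whose size `n - d` deck is the largest possible one (or nearly so) has `n / 3`
cherries and `2 n / 3` free runs, up to `O(d)`, uniformly for `100 d ^ 2 ≤ n`. Sufficiency: a lower
bound for the size `n - d` deck in terms of the free runs and of the size `n - 1` deck. Together:
the asymptotically extremal trees, which are the same for all fixed `d`.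
-/

set_option autoImplicit false

namespace Pool.Agent.Results.MP_dabf1a_co.ExtremalTrees

open Filter LeafDeck

/-- **The extremal trees near the diagonal.**
(1) Necessity: the structure of the (nearly) extremal trees, uniformly for `100 d ^ 2 ≤ n`.
(2) Sufficiency: let `f` be the number of members of the size `n - 1` deck of a tree. It is at
least the number of free runs, and the size `n - d` deck has at least
`C(f, d) - 100 * 4 ^ d * n ^ (3/2) * C(n, d - 2)` members.
(3) For every fixed `d ≥ 1` a sequence of trees is asymptotically extremal iff its number of free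
runs is asymptotically `2 n / 3`. -/
theorem result :
    (∀ (T : BTree) (d : ℕ) (δ a : ℝ), 1 ≤ d → 100 * d ^ 2 ≤ T.size → 0 ≤ δ → δ ≤ 1 / 8 →
      (1 - δ) * (maxDeck T.size (T.size - d) : ℝ) ≤ ((deck T (T.size - d)).ncard : ℝ) →
      a = 8 * δ * T.size / (3 * d) + 27 * d →
        2 * T.size / 3 - a ≤ ((deck T (T.size - 1)).ncard : ℝ) ∧
        2 * T.size / 3 - a ≤ (runs T : ℝ) ∧
        2 * T.size / 3 - 2 * a ≤ (freeRuns T : ℝ) ∧
        T.size / 3 - a / 2 ≤ (cherries T : ℝ) ∧
        (cherries T : ℝ) ≤ T.size / 3 + a) ∧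
    (∀ (T : BTree) (d : ℕ), 2 ≤ d → d < T.size →
      freeRuns T ≤ (deck T (T.size - 1)).ncard ∧
      (((deck T (T.size - 1)).ncard.choose d : ℕ) : ℝ) ≤
        ((deck T (T.size - d)).ncard : ℝ) +
          100 * 4 ^ d * ((T.size : ℝ) * √(T.size : ℝ)) * (T.size.choose (d - 2) : ℕ)) ∧
    (∀ T : ℕ → BTree, Tendsto (fun k => (T k).size) atTop atTop → ∀ d : ℕ, 1 ≤ d →
      (Tendsto (fun k => ((deck (T k) ((T k).size - d)).ncard : ℝ) /
          (maxDeck (T k).size ((T k).size - d) : ℝ)) atTop (nhds 1) ↔
        Tendsto (fun k => (freeRuns (T k) : ℝ) / ((T k).size : ℝ)) atTop (nhds (2 / 3)))) := by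
  refine ⟨?_, ?_, ?_⟩
  · intro T d δ a hd hn hδ0 hδ h ha
    have hd2 : d ≤ d ^ 2 := Nat.le_self_pow (by norm_num) _
    have hn2 : 2 ≤ T.size := by omega
    have hd0 : (0 : ℝ) < d := by exact_mod_cast hd
    have h1 := stab hd hn hδ0 hδ h
    have h2 : (1 - 4 * δ / d) * (2 * T.size / 3) - 27 * d = 2 * T.size / 3 - a := by
      rw [ha]
      field_simp
      ring
    rw [h2, ← card_fam_eq (by omega)] at h1
    rw [← card_fam_eq (T := T) (by omega : 1 < T.size)]
    have g1 : ((fam T 1).card : ℝ) ≤ runs T := by exact_mod_cast card_fam_one_le_runs T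
    have g2 : 2 * ((fam T 1).card : ℝ) ≤ runs T + freeRuns T := by
      exact_mod_cast two_card_fam_one_le T
    have g3 : 3 * (runs T : ℝ) + 1 ≤ 2 * T.size := by exact_mod_cast runs_le hn2
    have g4 : (runs T : ℝ) + 1 ≤ 2 * cherries T := by exact_mod_cast runs_cherries hn2
    have g5 : (runs T : ℝ) + cherries T ≤ T.size := by exact_mod_cast runs_add_cherries T
    refine ⟨h1, by linarith, by linarith, by linarith, by linarith⟩
  · intro T d hd hdn
    have h1 := levenshtein T d
    rw [card_fam_eq hdn, card_fam_eq (by omega : 1 < T.size)] at h1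
    unfold err at h1
    rw [if_neg (by omega)] at h1
    have h2 := freeRuns_le T
    rw [card_fam_eq (by omega : 1 < T.size)] at h2
    exact ⟨h2, h1⟩
  · intro T hT d hd
    rw [extremal_iff T hT d hd]
    exact tendsto_free_iff T hT

end Pool.Agent.Results.MP_dabf1a_co.ExtremalTrees
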