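import Pool.Agent.DeckB.FinalE

/-!
# The growth function of the largest decks of rooted binary trees
-/

set_option autoImplicit false

namespace Pool.Agent.Results.MP_dabf1a_co.GrowthFunction

open Filter Topology Pool.Agent.DeckB

/-- **The growth function.** There are a function `g`, continuous and concave on `[0, 1]`, with
`g 0 = g 1 = 0`, and a number `β` such that
(1) `M n j ≤ 2 exp (n g (j / n))` for `1 ≤ j ≤ n`, and `log (M n j) = n g (j / n) + o (n)`
uniformly in `j`;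
(2) for `0 < x ≤ 1 / 6` the number `g (1 - x)` is the minimum over all `z > 0` of
`Lam z - (1 - x) log z`, where `Lam z` is the supremum over all `k` of `log (vv z k) / (3 k + 4)`
for explicit polynomials `vv z k` in `z`; there is a root `b` between `59 / 25` and `71 / 30` of
an explicit polynomial such that for `δ = 2 / (3 (b + 2)) = 0.1527…` the number `g (1 - x)` is
equal to `x log (2 / (3 x)) - (1 / 3 - x) log (1 - 3 x)` for `0 < x ≤ δ` and larger than it for
`δ < x < 1 / 3`, and there are disjoint intervals `[u k, v k]`, one to the right of the other, with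
`u k → 1 - δ`, on which `g` is affine with strictly decreasing slopes `c k → - log b` (so `g` has
infinitely many affine pieces, which accumulate at `1 - δ`);
(3) `β` is the limit of `log (W k) / k`, `g x ≤ β x`, `g x / x` tends to `β` for `x → 0`, and
`exp ((β - ε) j) ≤ M n j ≤ W j` if `j` is large and `j / n` is small;
(4) for every `ε > 0` there is `K` such that for `n ≥ K` and `1 ≤ j ≤ n` there is a tree with `n`
leaves, copies of one tree with at most `K` leaves attached to a path above a caterpillar, whose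
size `j` deck has at least `exp (- ε n) M n j` members. -/
theorem result : ∃ (g : ℝ → ℝ) (β : ℝ),
    ContinuousOn g (Set.Icc 0 1) ∧ ConcaveOn ℝ (Set.Icc 0 1) g ∧ g 0 = 0 ∧ g 1 = 0 ∧
    (∀ n j : ℕ, 1 ≤ j → j ≤ n → (M n j : ℝ) ≤ 2 * Real.exp (n * g (j / n))) ∧
    (∀ ε : ℝ, 0 < ε → ∃ N : ℕ, ∀ n ≥ N, ∀ j, 1 ≤ j → j ≤ n →
      |Real.log (M n j) - n * g (j / n)| ≤ ε * n) ∧
    (∀ x : ℝ, 0 < x → x ≤ 1 / 6 →
      (∃ z : ℝ, 0 < z ∧ g (1 - x) = Lam z - (1 - x) * Real.log z) ∧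
        ∀ z : ℝ, 0 < z → g (1 - x) ≤ Lam z - (1 - x) * Real.log z) ∧
    (∃ b δ : ℝ, 59 / 25 < b ∧ b < 71 / 30 ∧
      (b ^ 4 + 3 * b ^ 3 + 3 * b ^ 2 + b - 2) ^ 3 =
        b ^ 2 * (b + 2) ^ 4 * (b ^ 2 + b - 1) ^ 3 ∧ δ = 2 / (3 * (b + 2)) ∧
      (∀ x : ℝ, 0 < x → x ≤ δ →
        g (1 - x) = x * Real.log (2 / (3 * x)) - (1 / 3 - x) * Real.log (1 - 3 * x)) ∧
      (∀ x : ℝ, δ < x → x < 1 / 3 →
        x * Real.log (2 / (3 * x)) - (1 / 3 - x) * Real.log (1 - 3 * x) < g (1 - x)) ∧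
      (∃ u v c : ℕ → ℝ, (∀ k, u k < v k ∧ v k < u (k + 1) ∧ c (k + 1) < c k ∧
        ∀ x ∈ Set.Icc (u k) (v k), g x = g (u k) + c k * (x - u k)) ∧
        Tendsto u atTop (𝓝 (1 - δ)) ∧ Tendsto c atTop (𝓝 (-Real.log b)))) ∧
    Tendsto (fun k : ℕ => Real.log (W k) / k) atTop (𝓝 β) ∧
    (∀ x ∈ Set.Icc (0 : ℝ) 1, g x ≤ β * x) ∧
    Tendsto (fun x => g x / x) (𝓝[>] 0) (𝓝 β) ∧
    (∀ ε : ℝ, 0 < ε → ∃ (δ : ℝ) (J : ℕ), 0 < δ ∧ ∀ n j : ℕ, J ≤ j → 1 ≤ j →
      (j : ℝ) ≤ δ * n → Real.exp ((β - ε) * j) ≤ M n j ∧ M n j ≤ W j) ∧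
    (∀ ε : ℝ, 0 < ε → ∃ K : ℕ, ∀ n ≥ K, ∀ j, 1 ≤ j → j ≤ n →
      ∃ (P : BT) (q r : ℕ), P.size ≤ K ∧ (rep P q (chain r .leaf)).size = n ∧
        Real.exp (-(ε * n)) * M n j ≤ ((deck j (rep P q (chain r .leaf))).ncard : ℝ)) := by
  refine ⟨growth, rate, growth_continuous, growth_concave, growth_zero, growth_one, ?_,
    fun ε hε => uniform hε, fun x h0 h1 => growth_min h0 h1, ?_, rate_tendsto,
    fun x hx => growth_le_rate hx.1 hx.2, growth_slope, ?_, fun ε hε => periodic hε⟩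
  · intro n j h0 hj
    have h1 := F_le_growth h0 hj
    have h2 := M_pos h0 hj
    unfold F at h1
    have h3 : (2 : ℝ) * Real.exp (n * growth (j / n)) =
        Real.exp (Real.log 2 + n * growth (j / n)) := by
      rw [Real.exp_add, Real.exp_log two_pos]
    rw [h3, ← Real.exp_log h2]
    exact Real.exp_le_exp.2 (by linarith)
  · obtain ⟨b, h1, h2, h3, h4, h5⟩ := exists_threshold
    refine ⟨b, _, h1, h2, h3, rfl, fun x h0 h6 => growth_eqC h1.le h5 h0 h6,
      fun x h0 h6 => growth_gtC (by linarith) h4 h0 h6, seq_of_pieces fun e he => ?_⟩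
    refine growth_affine h1 h2 ?_ h4 he
    unfold Gb
    linarith
  · intro ε hε
    obtain ⟨δ, J, hδ, h⟩ := small hε
    refine ⟨min δ 1, J, lt_min hδ one_pos, fun n j hJ hj hjn => ⟨?_, M_le_W n j⟩⟩
    have hn : (0 : ℝ) ≤ n := Nat.cast_nonneg _
    have h1 : (j : ℝ) ≤ δ * n := hjn.trans (mul_le_mul_of_nonneg_right (min_le_left _ _) hn)
    have h2 : (j : ℝ) ≤ n := by
      have := hjn.trans (mul_le_mul_of_nonneg_right (min_le_right _ _) hn)
      rwa [one_mul] at this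
    have h3 := h n j hJ hj h1
    rw [← Real.exp_log (M_pos hj (by exact_mod_cast h2))]
    exact Real.exp_le_exp.2 h3

end Pool.Agent.Results.MP_dabf1a_co.GrowthFunction
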